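import Mathlib
import Pool.Agent.W505.AS2

/-!
# A member of `𝒜^#` of non-integer degree `d > 2`

This disproves Q1 of MP_bac04d_nt.  The example `F` is entire and lies even in the Selberg class: it is an
infinite product `∏ (1 + a(p) p^{-s})` over primes, `|a(p)| ≤ 1`, with a functional equation with the
single gamma factor `Γ(λ s + 1/6)`, `λ = 2 m + 5/3`, so that its degree is `4 m + 10/3`.
-/

set_option autoImplicit false

open Complex Filter

namespace Pool.Agent.Results.MP_bac04d_nt.NonIntegerDegree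

/-- `G(s) = ∏ Γ(λ_j s + μ_j) ∏ Γ(λ'_j s + μ'_j)^{-1}`. -/
noncomputable def gammaFactor {r r' : ℕ} (lam : Fin r → ℝ) (mu : Fin r → ℂ) (lam' : Fin r' → ℝ)
    (mu' : Fin r' → ℂ) (s : ℂ) : ℂ :=
  (∏ j, Gamma ((lam j : ℂ) * s + mu j)) * ∏ j, (Gamma ((lam' j : ℂ) * s + mu' j))⁻¹

/-- (P1): `F` is the sum of a Dirichlet series which converges absolutely in a right half-plane. -/
def P1 (F : ℂ → ℂ) : Prop :=
  ∃ (a : ℕ → ℂ) (σ₀ : ℝ), ∀ s : ℂ, σ₀ < s.re → LSeriesSummable a s ∧ F s = LSeries a s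

/-- (P2): for some nonzero polynomial `P`, `P F` extends to an entire function `E`, and
`E(s) ≪ (1 + |t|)^M` on every vertical strip.  (Equality of meromorphic functions is equality off a
closed discrete set.) -/
def P2 (F : ℂ → ℂ) : Prop :=
  ∃ (P : Polynomial ℂ) (E : ℂ → ℂ), P ≠ 0 ∧ Differentiable ℂ E ∧
    E =ᶠ[codiscrete ℂ] (fun s => P.eval s * F s) ∧
    ∀ σ₁ σ₂ : ℝ, ∃ M C : ℝ, ∀ s : ℂ, σ₁ ≤ s.re → s.re ≤ σ₂ → ‖E s‖ ≤ C * (1 + |s.im|) ^ M

/-- (P3) with some data for which `2 ∑ λ_j - 2 ∑ λ'_j = d`: the function `Φ(s) = Q^s G(s) F(s)` satisfies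
`Φ(s) = ω conj Φ(1 - conj s)` (as meromorphic functions, i.e. off a closed discrete set). -/
def P3 (F : ℂ → ℂ) (d : ℝ) : Prop :=
  ∃ (Q : ℝ) (ω : ℂ) (r r' : ℕ) (lam : Fin r → ℝ) (mu : Fin r → ℂ) (lam' : Fin r' → ℝ)
    (mu' : Fin r' → ℂ), 0 < Q ∧ ‖ω‖ = 1 ∧ (∀ j, 0 < lam j) ∧ (∀ j, 0 < lam' j) ∧
    (fun s : ℂ => (Q : ℂ) ^ s * gammaFactor lam mu lam' mu' s * F s) =ᶠ[codiscrete ℂ]
      (fun s : ℂ => ω * starRingEnd ℂ ((Q : ℂ) ^ (1 - starRingEnd ℂ s) *
        gammaFactor lam mu lam' mu' (1 - starRingEnd ℂ s) * F (1 - starRingEnd ℂ s))) ∧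
    d = 2 * ∑ j, lam j - 2 * ∑ j, lam' j

/-- The members of `𝒜^#` of degree `d`: non-zero meromorphic functions on `ℂ` with (P1), (P2), (P3). -/
def ASharp (d : ℝ) : Set (ℂ → ℂ) :=
  {F | Meromorphic F ∧ ¬ F =ᶠ[codiscrete ℂ] 0 ∧ P1 F ∧ P2 F ∧ P3 F d}

/-- Q1: `𝒜^#_d` is empty for every real `d ≥ 0` which is not an integer. -/
def Q1 : Prop := ∀ d : ℝ, 0 ≤ d → (∀ k : ℤ, d ≠ k) → ASharp d = ∅

theorem poles_codiscrete (lam : ℝ) :
    ∀ᶠ s : ℂ in codiscrete ℂ, ∀ n : ℕ, (lam : ℂ) * s + 1 / 6 ≠ -(n : ℂ) := by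
  have hd : Differentiable ℂ (fun s : ℂ => (Gamma ((lam : ℂ) * s + 1 / 6))⁻¹) := by
    have h1 : Differentiable ℂ (fun s : ℂ => (lam : ℂ) * s + 1 / 6) := by fun_prop
    exact Complex.differentiable_one_div_Gamma.comp h1
  have han : AnalyticOnNhd ℂ (fun s : ℂ => (Gamma ((lam : ℂ) * s + 1 / 6))⁻¹) Set.univ :=
    fun z _ => hd.analyticAt z
  have h0 : (fun s : ℂ => (Gamma ((lam : ℂ) * s + 1 / 6))⁻¹) 0 ≠ 0 := by
    simp only [mul_zero, zero_add]
    apply inv_ne_zero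
    apply Complex.Gamma_ne_zero_of_re_pos
    norm_num
  have h := han.preimage_zero_mem_codiscrete h0
  filter_upwards [h] with s hs n hn
  apply hs
  simp only [Set.mem_singleton_iff]
  rw [hn, Complex.Gamma_neg_nat_eq_zero, inv_zero]

theorem poles_codiscrete' (lam : ℝ) :
    ∀ᶠ s : ℂ in codiscrete ℂ, ∀ n : ℕ,
      (lam : ℂ) * (1 - starRingEnd ℂ s) + 1 / 6 ≠ -(n : ℂ) := by
  have hd : Differentiable ℂ (fun s : ℂ => (Gamma ((lam : ℂ) * (1 - s) + 1 / 6))⁻¹) := by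
    have h1 : Differentiable ℂ (fun s : ℂ => (lam : ℂ) * (1 - s) + 1 / 6) := by fun_prop
    exact Complex.differentiable_one_div_Gamma.comp h1
  have han : AnalyticOnNhd ℂ (fun s : ℂ => (Gamma ((lam : ℂ) * (1 - s) + 1 / 6))⁻¹) Set.univ :=
    fun z _ => hd.analyticAt z
  have h0 : (fun s : ℂ => (Gamma ((lam : ℂ) * (1 - s) + 1 / 6))⁻¹) 1 ≠ 0 := by
    simp only [sub_self, mul_zero, zero_add]
    apply inv_ne_zero
    apply Complex.Gamma_ne_zero_of_re_pos
    norm_num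
  have h := han.preimage_zero_mem_codiscrete h0
  filter_upwards [h] with s hs n hn
  apply hs
  simp only [Set.mem_singleton_iff]
  have h2 : (lam : ℂ) * (1 - s) + 1 / 6 = -(n : ℂ) := by
    have := congrArg (starRingEnd ℂ) hn
    simp only [map_add, map_mul, map_sub, map_one, Complex.conj_conj, Complex.conj_ofReal, map_neg,
      map_div₀, map_natCast] at this
    rw [← this]
    congr 2
    exact (Complex.conj_ofNat 6).symm
  rw [h2, Complex.Gamma_neg_nat_eq_zero, inv_zero]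

open Pool.Agent.H469R10.HO in
theorem exists_mem : ∃ d : ℝ, 2 < d ∧ (∀ k : ℤ, d ≠ k) ∧ (ASharp d).Nonempty := by
  obtain ⟨m, Q, ε, a, F, hQ, hε, ha1, ha, hd, hser, hstrip, hfe⟩ := Pool.Agent.W505.AS.exists_example
  refine ⟨2 * lamOf m, ?_, ?_, F, ?_, ?_, ?_, ?_, ?_⟩
  · have : (0 : ℝ) ≤ m := Nat.cast_nonneg m
    unfold lamOf
    linarith
  · intro k hk
    unfold lamOf at hk
    have h1 : (12 * m + 10 : ℝ) = 3 * k := by linarith
    have h2 : (12 * m + 10 : ℤ) = 3 * k := by exact_mod_cast h1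
    omega
  · exact fun x => (hd.analyticAt x).meromorphicAt
  · -- non-zero: a holomorphic function which vanishes off a discrete set vanishes everywhere
    intro h0
    have h1 : F = 0 := by
      have hA : AnalyticOnNhd ℂ F Set.univ := fun z _ => hd.analyticAt z
      by_contra hne
      obtain ⟨x, hx⟩ := Function.ne_iff.1 hne
      have h2 := hA.preimage_zero_mem_codiscrete (x := x) hx
      have h3 : ∀ᶠ s : ℂ in codiscrete ℂ, False := by
        filter_upwards [h0, h2] with s hs1 hs2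
        exact hs2 hs1
      have h4 := (mem_codiscreteWithin_iff_forall_mem_nhdsNE.1 h3) 0 (Set.mem_univ _)
      have h5 : ({x : ℂ | False} ∪ Set.univᶜ : Set ℂ) = ∅ := by simp
      rw [h5] at h4
      exact (inferInstance : (nhdsWithin (0 : ℂ) {0}ᶜ).NeBot).ne (Filter.empty_mem_iff_bot.1 h4)
    -- but the Dirichlet series has `a 1 = 1`
    have hab : LSeries.abscissaOfAbsConv (fun n => (a n : ℂ)) < ⊤ := by
      have h2 : LSeriesSummable (fun n => (a n : ℂ)) 2 := (hser 2 (by norm_num)).1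
      exact lt_of_le_of_lt h2.abscissaOfAbsConv_le (EReal.coe_lt_top _)
    have ht := LSeries.tendsto_atTop hab
    have h3 : (fun x : ℝ => LSeries (fun n => (a n : ℂ)) x) =ᶠ[atTop] fun _ => (0 : ℂ) := by
      filter_upwards [eventually_gt_atTop 1] with x hx
      rw [← (hser x (by simpa using hx)).2, h1]
      rfl
    have h4 := tendsto_nhds_unique (ht.congr' h3) tendsto_const_nhds
    simp [ha1] at h4
  · exact ⟨fun n => (a n : ℂ), 1, hser⟩
  · exact ⟨1, F, one_ne_zero, hd, by simp, hstrip⟩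
  · refine ⟨Q, ε, 1, 0, fun _ => lamOf m, fun _ => 1 / 6, fun j => j.elim0, fun j => j.elim0, hQ, ?_, ?_,
      fun j => j.elim0, ?_, ?_⟩
    · rcases hε with h | h <;> rw [h] <;> simp
    · intro _
      exact Pool.Agent.H902R3.I469.lam_pos m
    · filter_upwards [poles_codiscrete (lamOf m), poles_codiscrete' (lamOf m)] with s h1 h2
      have h3 := hfe s h1 h2
      simp only [gammaFactor, Finset.univ_unique, Finset.prod_singleton, Finset.univ_eq_empty,
        Finset.prod_empty, mul_one]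
      have e1 : (Q : ℂ) ^ s * Gamma (((lamOf m : ℝ) : ℂ) * s + 1 / 6) * F s =
          F s * (Q : ℂ) ^ s * Gamma (((lamOf m : ℝ) : ℂ) * s + 1 / 6) := by ring
      rw [e1, h3]
      congr 2
      ring
    · simp

/-- There are a non-integer `d > 2` and a member of `𝒜^#` of degree `d`; in particular Q1 is false. -/
theorem result : (∃ d : ℝ, 2 < d ∧ (∀ k : ℤ, d ≠ k) ∧ (ASharp d).Nonempty) ∧ ¬ Q1 := by
  refine ⟨exists_mem, fun h => ?_⟩
  obtain ⟨d, hd, hk, hne⟩ := exists_mem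
  rw [h d (by linarith) hk] at hne
  exact Set.not_nonempty_empty hne

end Pool.Agent.Results.MP_bac04d_nt.NonIntegerDegree
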